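import Pool.Agent.T2h11.Zol.Defs
import Pool.Agent.N64.AF.V2

/-!
# Finite ratios and finite orbits
-/

set_option autoImplicit false

open CategoryTheory Limits MonoidalCategory Module Filter Topology
open Pool.Agent.Y112.SR Pool.Agent.Y112.KD Pool.Agent.N64.AF
open scoped ENNReal TensorProduct

namespace Pool.Agent.T2h11.Zol

universe v u w y x

section Lin

variable {K : Type w} [Field K] [Infinite K] {V : Type x} [AddCommGroup V] [Module K V]

/-- A linear functional separates finitely many vectors. -/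
lemma exists_sep {N : ℕ} (u : Fin N → V) (hu : Function.Injective u) :
    ∃ l : V →ₗ[K] K, Function.Injective fun i => l (u i) := by
  classical
  let ι := {p : Fin N × Fin N // p.1 ≠ p.2}
  obtain ⟨f, hf⟩ := Module.exists_dual_forall_apply_ne_zero (K := K)
    (fun p : ι => u p.1.1 - u p.1.2) (fun p h => p.2 (hu (sub_eq_zero.1 h)))
  refine ⟨f, fun i j hij => ?_⟩
  by_contra hne
  apply hf ⟨(i, j), hne⟩
  change f (u i - u j) = 0
  rw [map_sub]
  exact sub_eq_zero.2 hij

omit [Infinite K] in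
/-- Vectors with Vandermonde coordinates are linearly independent. -/
lemma indep_of_vandermonde {E : Type y} [AddCommGroup E] [Module K E] {D : ℕ}
    (L : E →ₗ[K] (Fin D → K)) (c : Fin D → K) (hc : Function.Injective c) (e : Fin D → E)
    (he : ∀ i j, L (e i) j = c i ^ (j : ℕ)) : LinearIndependent K e := by
  apply LinearIndependent.of_comp L
  have h1 : (L ∘ e) = (Matrix.vandermonde c).row := by
    ext i j
    rw [Function.comp_apply, he]
    rfl
  rw [h1]
  apply Matrix.linearIndependent_rows_of_isUnit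
  rw [Matrix.isUnit_iff_isUnit_det]
  exact (Matrix.det_vandermonde_ne_zero_iff.2 hc).isUnit

end Lin

section Span

variable {C : Type u} [Category.{v} C] [Preadditive C] {Λ : Type w} [Field Λ] [Linear Λ C]

/-- The elements of the subfunctor generated by finitely many elements. -/
lemma exists_comb (F : C ⥤ ModuleCat.{x} Λ) [F.Additive] [F.Linear Λ] {U Z : C} {l : ℕ}
    (z : Fin l → F.obj U) (y : F.obj Z)
    (hy : y ∈ Submodule.span Λ {y : F.obj Z | ∃ (i : Fin l) (c : U ⟶ Z), (F.map c).hom (z i) = y}) :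
    ∃ c : Fin l → (U ⟶ Z), ∑ i, (F.map (c i)).hom (z i) = y := by
  classical
  induction hy using Submodule.span_induction with
  | mem y h =>
    obtain ⟨i, c, rfl⟩ := h
    refine ⟨Pi.single i c, ?_⟩
    rw [Finset.sum_eq_single i]
    · rw [Pi.single_eq_same]
    · intro j _ hj
      rw [Pi.single_eq_of_ne hj, F.map_zero]
      rfl
    · intro h
      exact absurd (Finset.mem_univ i) h
  | zero => exact ⟨0, Finset.sum_eq_zero fun i _ => by
      rw [Pi.zero_apply, F.map_zero]; rfl⟩
  | add a b _ _ ha hb =>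
    obtain ⟨c, rfl⟩ := ha
    obtain ⟨d, rfl⟩ := hb
    refine ⟨c + d, ?_⟩
    rw [← Finset.sum_add_distrib]
    refine Finset.sum_congr rfl fun i _ => ?_
    rw [Pi.add_apply, F.map_add]
    rfl
  | smul r a _ ha =>
    obtain ⟨c, rfl⟩ := ha
    refine ⟨r • c, ?_⟩
    rw [Finset.smul_sum]
    refine Finset.sum_congr rfl fun i _ => ?_
    rw [Pi.smul_apply, F.map_smul]
    rfl

end Span

section Pow

variable {C : Type u} [Category.{v} C] [Preadditive C] [MonoidalCategory C]
  [SymmetricCategory C] {K : Type w} [Field K] (R : SuperRealisation C K)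

/-- The tensor powers of a vector. -/
def pv {Y : C} (x : R.H.obj Y) : ∀ j : ℕ, R.H.obj (tp Y j)
  | 0 => one R
  | j + 1 => (Functor.LaxMonoidal.μ R.H (tp Y j) Y).hom (pv x j ⊗ₜ[K] x)

/-- The tensor powers of a functional. -/
noncomputable def pf {Y : C} (f : R.H.obj Y →ₗ[K] K) : ∀ j : ℕ, R.H.obj (tp Y j) →ₗ[K] K
  | 0 => (Functor.OplaxMonoidal.η R.H).hom
  | j + 1 => LinearMap.mul' K K ∘ₗ TensorProduct.map (pf f j) f ∘ₗ
      (Functor.OplaxMonoidal.δ R.H (tp Y j) Y).hom

lemma eta_one : (Functor.OplaxMonoidal.η R.H).hom (one R) = (1 : K) := by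
  have h := congrArg (fun f => f.hom (1 : K)) (Functor.Monoidal.ε_η R.H)
  exact h

lemma delta_mu {Y Z : C} (x : R.H.obj Y) (y : R.H.obj Z) :
    (Functor.OplaxMonoidal.δ R.H Y Z).hom
      ((Functor.LaxMonoidal.μ R.H Y Z).hom (x ⊗ₜ[K] y)) = x ⊗ₜ[K] y := by
  have h := congrArg (fun f => f.hom (x ⊗ₜ[K] y)) (Functor.Monoidal.μ_δ R.H Y Z)
  exact h

lemma pf_pv {Y : C} (f : R.H.obj Y →ₗ[K] K) (x : R.H.obj Y) (j : ℕ) :
    pf R f j (pv R x j) = f x ^ j := by
  induction j with
  | zero => exact (eta_one R).trans (pow_zero _).symm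
  | succ j ih =>
    change LinearMap.mul' K K (TensorProduct.map (pf R f j) f
      ((Functor.OplaxMonoidal.δ R.H (tp Y j) Y).hom
        ((Functor.LaxMonoidal.μ R.H (tp Y j) Y).hom (pv R x j ⊗ₜ[K] x)))) = _
    rw [delta_mu, TensorProduct.map_tmul, LinearMap.mul'_apply, ih, pow_succ]

variable {R} {G : Type y} [Group G]

lemma TensorAction.natural (a : TensorAction R G) (g : G) {Y Z : C} (f : Y ⟶ Z)
    (x : R.H.obj Y) : a.act g Z ((R.H.map f).hom x) = (R.H.map f).hom (a.act g Y x) := by
  have h := congrArg (fun t => t.hom x) ((a.aut g).hom.naturality f)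
  exact h

lemma TensorAction.tensor (a : TensorAction R G) (g : G) (Y Z : C) (x : R.H.obj Y)
    (y : R.H.obj Z) : a.act g (Y ⊗ Z) ((Functor.LaxMonoidal.μ R.H Y Z).hom (x ⊗ₜ[K] y)) =
      (Functor.LaxMonoidal.μ R.H Y Z).hom (a.act g Y x ⊗ₜ[K] a.act g Z y) := by
  have h := congrArg (fun t => t.hom (x ⊗ₜ[K] y)) (a.aut_tensor g Y Z)
  exact h

lemma TensorAction.unit (a : TensorAction R G) (g : G) (x : R.H.obj (𝟙_ C)) :
    a.act g (𝟙_ C) x = x := by
  have h := congrArg (fun t => t.hom x) (a.aut_unit g)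
  exact h

lemma act_pv (a : TensorAction R G) (g : G) {Y : C} (x : R.H.obj Y) (j : ℕ) :
    a.act g (tp Y j) (pv R x j) = pv R (a.act g Y x) j := by
  induction j with
  | zero => exact a.unit g _
  | succ j ih =>
    change a.act g (tp Y j ⊗ Y) ((Functor.LaxMonoidal.μ R.H (tp Y j) Y).hom (pv R x j ⊗ₜ[K] x)) = _
    rw [a.tensor, ih]
    rfl

/-- A family of subspaces which contains the unit and is closed under products. -/
structure IsMult (R : SuperRealisation C K) (S : ∀ Z, Submodule K (R.H.obj Z)) : Prop where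
  stab : IsStab R.H S
  unit : one R ∈ S (𝟙_ C)
  mul : ∀ (Y Z : C) (x : R.H.obj Y) (y : R.H.obj Z), x ∈ S Y → y ∈ S Z →
    (Functor.LaxMonoidal.μ R.H Y Z).hom (x ⊗ₜ[K] y) ∈ S (Y ⊗ Z)

lemma pv_mem {S : ∀ Z, Submodule K (R.H.obj Z)} (hS : IsMult R S) {Y : C} {x : R.H.obj Y}
    (hx : x ∈ S Y) (j : ℕ) : pv R x j ∈ S (tp Y j) := by
  induction j with
  | zero => exact hS.unit
  | succ j ih => exact hS.mul _ _ _ _ ih hx

lemma mem_inv {a : TensorAction R G} {Y : C} {x : R.H.obj Y} :
    x ∈ a.inv Y ↔ ∀ g, a.act g Y x = x := by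
  simp only [TensorAction.inv, Submodule.mem_iInf, LinearMap.mem_eqLocus, LinearMap.id_apply]

lemma isMult_inv (a : TensorAction R G) : IsMult R a.inv where
  stab Y Z f x hx := mem_inv.2 fun g => by rw [a.natural, mem_inv.1 hx g]
  unit := mem_inv.2 fun g => a.unit g _
  mul Y Z x y hx hy := mem_inv.2 fun g => by rw [a.tensor, mem_inv.1 hx g, mem_inv.1 hy g]

end Pow

section Main

variable {C : Type u} [Category.{v} C] [Preadditive C] [MonoidalCategory C]
  [MonoidalPreadditive C] [SymmetricCategory C] [RightRigidCategory C]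
  {K : Type w} [Field K] [Linear K C] [MonoidalLinear K C] {R : SuperRealisation C K}
  {G : Type y} [Group G]

omit [MonoidalPreadditive C] [RightRigidCategory C] [MonoidalLinear K C] in
lemma linear_of (hR : IsReal K R) : R.H.Linear K where
  map_smul {Y Z} f c := by rw [hR.lin]; rfl

omit [MonoidalPreadditive C] [RightRigidCategory C] [MonoidalLinear K C] [Linear K C] in
/-- The orbit of a vector is finite if all its powers are combinations of finitely many vectors. -/
theorem orbit_fin [Infinite K] (a : TensorAction R G) {Y : C} (x : R.H.obj Y) {l : ℕ}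
    (U : Fin l → C) (z : ∀ k, R.H.obj (U k))
    (hz : ∀ j : ℕ, ∃ c : ∀ k, (U k ⟶ tp Y j), ∑ k, (R.H.map (c k)).hom (z k) = pv R x j) :
    (Set.range fun g => a.act g Y x).Finite := by
  classical
  have hfin : ∀ k, Module.Finite K (R.H.obj (U k)) := fun k => R.finite (U k)
  by_contra hinf
  -- many points of the orbit
  set D := finrank K (∀ k, R.H.obj (U k)) + 1 with hD
  have hinf' : (Set.range fun g => a.act g Y x).Infinite := hinf
  obtain ⟨u, hu⟩ : ∃ u : Fin D → R.H.obj Y, Function.Injective u ∧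
      ∀ i, ∃ g, a.act g Y x = u i := by
    let em := hinf'.natEmbedding
    refine ⟨fun i => (em i : R.H.obj Y), ?_, fun i => (em i).2⟩
    intro i j hij
    exact Fin.ext (em.injective (Subtype.ext hij))
  obtain ⟨hu, hu'⟩ := hu
  choose g hg using hu'
  obtain ⟨f, hf⟩ := exists_sep (K := K) u hu
  choose c hc using hz
  -- the linear map
  let L : (∀ k, R.H.obj (U k)) →ₗ[K] (Fin D → K) := LinearMap.pi fun j : Fin D =>
    pf R f (j : ℕ) ∘ₗ ∑ k : Fin l, (R.H.map (c j k)).hom ∘ₗ LinearMap.proj k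
  have hL : ∀ (h : G) (j : Fin D), L (fun k => a.act h (U k) (z k)) j =
      f (a.act h Y x) ^ (j : ℕ) := by
    intro h j
    change pf R f (j : ℕ) ((∑ k : Fin l, (R.H.map (c j k)).hom ∘ₗ
      (LinearMap.proj k : (∀ k, R.H.obj (U k)) →ₗ[K] R.H.obj (U k))) (fun k => a.act h (U k) (z k))) = _
    rw [← pf_pv R f (a.act h Y x) j, ← act_pv, ← hc, map_sum, LinearMap.sum_apply]
    congr 1
    refine Finset.sum_congr rfl fun k _ => ?_
    rw [a.natural]
    rfl
  have hind : LinearIndependent K
      (fun i : Fin D => (fun k => a.act (g i) (U k) (z k) : ∀ k, R.H.obj (U k))) :=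
    indep_of_vandermonde L (fun i => f (u i)) hf _ fun i j => by rw [hL, hg]
  have h4 : Fintype.card (Fin D) ≤ finrank K (∀ k, R.H.obj (U k)) := hind.fintype_card_le_finrank
  rw [Fintype.card_fin, hD] at h4
  exact Nat.not_succ_le_self _ h4

omit [MonoidalLinear K C] in
/-- The orbits of the elements of a subfunctor which is generated by finitely many elements and
closed under products are finite. -/
theorem orbit_finite [Infinite K] (hR : IsReal K R) {S : ∀ Z, Submodule K (R.H.obj Z)}
    (hS : IsMult R S) {T : C} {m l : ℕ} (z : Fin l → (sub R.H S hS.stab).obj (tp T m))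
    (hz : ∀ (n : ℕ) (y : (sub R.H S hS.stab).obj (tp T n)),
      y ∈ Submodule.span K {y : (sub R.H S hS.stab).obj (tp T n) |
        ∃ (i : Fin l) (c : tp T m ⟶ tp T n), ((sub R.H S hS.stab).map c).hom (z i) = y})
    (a : TensorAction R G) (n : ℕ) (x : R.H.obj (tp T n)) (hx : x ∈ S (tp T n)) :
    (Set.range fun g => a.act g (tp T n) x).Finite := by
  classical
  have := linear_of hR
  refine orbit_fin a x (fun _ : Fin l => tp T m) (fun k => (z k).1) fun j => ?_
  obtain ⟨b, ⟨e⟩⟩ := N690V2.exists_iso T n j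
  have h1 : (R.H.map e.hom).hom (pv R x j) ∈ S (tp T b) := hS.stab e.hom (pv_mem hS hx j)
  obtain ⟨c, hc⟩ := exists_comb (sub R.H S hS.stab) z (⟨_, h1⟩ : S (tp T b)) (hz b _)
  refine ⟨fun i => c i ≫ e.inv, ?_⟩
  have h2 : ∑ i, (R.H.map (c i)).hom (z i).1 = (R.H.map e.hom).hom (pv R x j) := by
    let w : Fin l → S (tp T b) := fun i => ((sub R.H S hS.stab).map (c i)).hom (z i)
    have hc' : ∑ i, w i = (⟨_, h1⟩ : S (tp T b)) := hc
    have h3 := congrArg (Submodule.subtype (S (tp T b))) hc'
    rw [map_sum] at h3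
    exact h3
  calc ∑ i, (R.H.map (c i ≫ e.inv)).hom (z i).1
      = (R.H.map e.inv).hom (∑ i, (R.H.map (c i)).hom (z i).1) := by
        rw [map_sum]
        refine Finset.sum_congr rfl fun i _ => ?_
        rw [Functor.map_comp]
        rfl
    _ = (R.H.map (e.hom ≫ e.inv)).hom (pv R x j) := by
        rw [h2, Functor.map_comp]
        rfl
    _ = _ := by
        rw [Iso.hom_inv_id, CategoryTheory.Functor.map_id]
        rfl

end Main

end Pool.Agent.T2h11.Zol
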