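import Pool.Agent.T2h11.Zol.Orb
import Pool.Agent.N64.AF.E5

/-!
# The rate of growth
-/

set_option autoImplicit false

open CategoryTheory Limits MonoidalCategory Module Filter Topology
open Pool.Agent.Y112.SR Pool.Agent.Y112.KD Pool.Agent.N64.AF
open scoped ENNReal TensorProduct

namespace Pool.Agent.T2h11.Zol

universe u v w y x

section Gen

variable {C : Type u} [Category.{v} C] [Preadditive C] [MonoidalCategory C]
  [SymmetricCategory C] {K : Type w} [Field K] {R : SuperRealisation C K}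

/-- The subspaces generated by the powers of `x` of exponent at most `i`. -/
def gn {Y : C} (x : R.H.obj Y) (i : ℕ) (Z : C) : Submodule K (R.H.obj Z) :=
  Submodule.span K {y | ∃ (j : ℕ) (_ : j ≤ i) (c : tp Y j ⟶ Z), (R.H.map c).hom (pv R x j) = y}

lemma gn_mono {Y : C} (x : R.H.obj Y) {i j : ℕ} (h : i ≤ j) (Z : C) : gn x i Z ≤ gn x j Z := by
  refine Submodule.span_mono ?_
  rintro _ ⟨k, hk, c, rfl⟩
  exact ⟨k, hk.trans h, c, rfl⟩

lemma gn_stab {Y : C} (x : R.H.obj Y) (i : ℕ) : IsStab R.H (gn x i) := by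
  intro Z Z' f
  rw [gn, Submodule.span_le]
  rintro _ ⟨j, hj, c, rfl⟩
  refine Submodule.subset_span ⟨j, hj, c ≫ f, ?_⟩
  rw [Functor.map_comp]
  rfl

lemma pv_mem_gn {Y : C} (x : R.H.obj Y) {i j : ℕ} (h : j ≤ i) : pv R x j ∈ gn x i (tp Y j) := by
  refine Submodule.subset_span ⟨j, h, 𝟙 _, ?_⟩
  rw [CategoryTheory.Functor.map_id]
  rfl

lemma gn_le {S : ∀ Z, Submodule K (R.H.obj Z)} (hS : IsMult R S) {Y : C} {x : R.H.obj Y}
    (hx : x ∈ S Y) (i : ℕ) (Z : C) : gn x i Z ≤ S Z := by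
  rw [gn, Submodule.span_le]
  rintro _ ⟨j, -, c, rfl⟩
  exact hS.stab c (pv_mem hS hx j)

/-- If the power of exponent `i + 1` is generated by the smaller ones, so are all powers. -/
lemma pv_mem_of {Y : C} (x : R.H.obj Y) {i : ℕ} (h : pv R x (i + 1) ∈ gn x i (tp Y (i + 1)))
    (j : ℕ) : pv R x j ∈ gn x i (tp Y j) := by
  induction j with
  | zero => exact pv_mem_gn x (Nat.zero_le i)
  | succ j ih =>
    -- multiplication by `x`
    let m : R.H.obj (tp Y j) →ₗ[K] R.H.obj (tp Y j ⊗ Y) :=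
      (Functor.LaxMonoidal.μ R.H (tp Y j) Y).hom ∘ₗ
        (TensorProduct.mk K (R.H.obj (tp Y j)) (R.H.obj Y)).flip x
    have key : gn x i (tp Y j) ≤ (gn x i (tp Y (j + 1))).comap m := by
      rw [gn, Submodule.span_le]
      rintro _ ⟨k, hk, c, rfl⟩
      change (Functor.LaxMonoidal.μ R.H (tp Y j) Y).hom ((R.H.map c).hom (pv R x k) ⊗ₜ[K] x) ∈
        gn x i (tp Y j ⊗ Y)
      have h1 : (Functor.LaxMonoidal.μ R.H (tp Y j) Y).hom
          ((R.H.map c).hom (pv R x k) ⊗ₜ[K] x) = (R.H.map (c ▷ Y)).hom (pv R x (k + 1)) := by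
        have h2 := congrArg (fun f => f.hom (pv R x k ⊗ₜ[K] x))
          (Functor.LaxMonoidal.μ_natural_left R.H c Y)
        exact h2
      rw [h1]
      rcases Nat.lt_or_ge k i with h2 | h2
      · exact gn_stab x i (c ▷ Y) (pv_mem_gn x h2)
      · have h3 : k = i := le_antisymm hk h2
        subst h3
        exact gn_stab x k (c ▷ Y) h
    exact key ih

end Gen

section Comb

variable {C : Type u} [Category.{v} C] [Preadditive C] [MonoidalCategory C]
  [MonoidalPreadditive C] [SymmetricCategory C] [RightRigidCategory C]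
  {K : Type w} [Field K] [Linear K C] [MonoidalLinear K C] {R : SuperRealisation C K}

omit [MonoidalPreadditive C] [RightRigidCategory C] [MonoidalLinear K C] in
lemma exists_comb_gn (hR : IsReal K R) {Y : C} (x : R.H.obj Y) (i : ℕ) (Z : C) (y : R.H.obj Z)
    (hy : y ∈ gn x i Z) : ∃ c : ∀ k : Fin (i + 1), (tp Y (k : ℕ) ⟶ Z),
      ∑ k : Fin (i + 1), (R.H.map (c k)).hom (pv R x (k : ℕ)) = y := by
  classical
  rw [gn] at hy
  induction hy using Submodule.span_induction with
  | mem y h =>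
    obtain ⟨j, hj, c, rfl⟩ := h
    refine ⟨fun k => if h : j = (k : ℕ) then eqToHom (by rw [h]) ≫ c else 0, ?_⟩
    rw [Finset.sum_eq_single (⟨j, Nat.lt_succ_of_le hj⟩ : Fin (i + 1))]
    · simp
    · intro k _ hk
      have h1 : j ≠ (k : ℕ) := fun h => hk (Fin.ext h.symm)
      beta_reduce
      rw [dif_neg h1, R.H.map_zero]
      rfl
    · intro h
      exact absurd (Finset.mem_univ _) h
  | zero => exact ⟨fun _ => 0, Finset.sum_eq_zero fun k _ => by rw [R.H.map_zero]; rfl⟩
  | add a b _ _ ha hb =>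
    obtain ⟨c, rfl⟩ := ha
    obtain ⟨d, rfl⟩ := hb
    refine ⟨fun k => c k + d k, ?_⟩
    rw [← Finset.sum_add_distrib]
    refine Finset.sum_congr rfl fun k _ => ?_
    rw [R.H.map_add]
    rfl
  | smul r a _ ha =>
    obtain ⟨c, rfl⟩ := ha
    refine ⟨fun k => r • c k, ?_⟩
    rw [Finset.smul_sum]
    refine Finset.sum_congr rfl fun k _ => ?_
    rw [hR.lin]
    rfl

omit [MonoidalLinear K C] [RightRigidCategory C] in
/-- The orbit is finite if some power is generated by the smaller ones. -/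
lemma orbit_fin_of_gn [Infinite K] (hR : IsReal K R) {G : Type y} [Group G]
    (a : TensorAction R G) {Y : C} (x : R.H.obj Y) {i : ℕ}
    (h : pv R x (i + 1) ∈ gn x i (tp Y (i + 1))) : (Set.range fun g => a.act g Y x).Finite :=
  orbit_fin a x (fun k : Fin (i + 1) => tp Y (k : ℕ)) (fun k => pv R x (k : ℕ)) fun j =>
    exists_comb_gn hR x i _ _ (pv_mem_of x h j)

omit [Linear K C] [MonoidalLinear K C] in
lemma exists_iso_mul (T : C) (m k : ℕ) : Nonempty (tp (tp T m) k ≅ tp T (k * m)) := by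
  induction k with
  | zero => exact ⟨eqToIso (by rw [Nat.zero_mul])⟩
  | succ k ih =>
    obtain ⟨j⟩ := ih
    obtain ⟨i, -⟩ := exists_tp_iso T (k * m) m
    exact ⟨whiskerRightIso j (tp T m) ≪≫ i ≪≫ eqToIso (by rw [Nat.succ_mul])⟩

end Comb

end Pool.Agent.T2h11.Zol
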