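import Pool.Agent.T2h11.Zol.Orb

/-!
# Vectors which come from morphisms
-/

set_option autoImplicit false

open CategoryTheory Limits MonoidalCategory Module Filter Topology
open Pool.Agent.Y112.SR Pool.Agent.Y112.KD Pool.Agent.N64.AF
open scoped ENNReal TensorProduct

namespace Pool.Agent.T2h11.Zol

universe u w

variable {C : Type u} [Category.{w} C] [Preadditive C] [MonoidalCategory C]
  [MonoidalPreadditive C] [SymmetricCategory C] [RightRigidCategory C]
  {K : Type w} [Field K] [CharZero K] [IsAlgClosed K] [Linear K C] [MonoidalLinear K C]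
  {R : SuperRealisation C K}

omit [IsAlgClosed K] in
lemma numTriv_of_map (hR : IsReal K R) {X Y : C} {f : X ⟶ Y} (hf : R.H.map f = 0) :
    NumTriv f := by
  intro g
  rw [tr_eq_zero_iff hR, Functor.map_comp, hf, zero_comp, zero_comp]
  exact map_zero _

/-- The evaluation of the morphisms from the unit object. -/
noncomputable def ev (hR : IsReal K R) (Z : C) : (𝟙_ C ⟶ Z) →ₗ[K] R.H.obj Z where
  toFun f := (R.H.map f).hom (one R)
  map_add' f g := by rw [Functor.map_add]; rfl
  map_smul' c f := by rw [hR.lin]; rfl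

omit [MonoidalPreadditive C] [RightRigidCategory C] [CharZero K] [IsAlgClosed K] [Linear K C]
  [MonoidalLinear K C] in
lemma mem_of_ev {S : ∀ Z, Submodule K (R.H.obj Z)} (hS : IsMult R S) {Z : C} (f : 𝟙_ C ⟶ Z) :
    (R.H.map f).hom (one R) ∈ S Z := hS.stab f hS.unit

omit [MonoidalPreadditive C] [RightRigidCategory C] [CharZero K] [IsAlgClosed K] [Linear K C]
  [MonoidalLinear K C] in
lemma eq_smul_one (x : R.H.obj (𝟙_ C)) : ∃ c : K, x = c • one R := by
  refine ⟨(Functor.OplaxMonoidal.η R.H).hom x, ?_⟩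
  have h := congrArg (fun f => f.hom x) (Functor.Monoidal.η_ε R.H)
  have h1 : (Functor.LaxMonoidal.ε R.H).hom ((Functor.OplaxMonoidal.η R.H).hom x) = x := h
  have h2 : (Functor.LaxMonoidal.ε R.H).hom ((Functor.OplaxMonoidal.η R.H).hom x) =
      (Functor.LaxMonoidal.ε R.H).hom (((Functor.OplaxMonoidal.η R.H).hom x : K) • (1 : K)) := by
    rw [smul_eq_mul, mul_one]
  rw [map_smul] at h2
  exact h1.symm.trans h2

omit [MonoidalPreadditive C] [RightRigidCategory C] [CharZero K] [IsAlgClosed K] [Linear K C]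
  [MonoidalLinear K C] in
lemma map_eq_zero_of {Z : C} {f : 𝟙_ C ⟶ Z} (hf : (R.H.map f).hom (one R) = 0) :
    R.H.map f = 0 := by
  ext x
  obtain ⟨c, rfl⟩ := eq_smul_one x
  change (R.H.map f).hom (c • one R) = 0
  rw [map_smul, hf, smul_zero]

/-- The natural transformation from the morphisms to the vectors. -/
noncomputable def phi (hR : IsReal K R) {S : ∀ Z, Submodule K (R.H.obj Z)} (hS : IsMult R S) :
    homF K (𝟙_ C) ⟶ sub R.H S hS.stab where
  app Z := ModuleCat.ofHom ((ev hR Z).codRestrict (S Z) fun f => mem_of_ev hS f)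
  naturality {Y Z} f := by
    ext g
    apply Subtype.ext
    change (R.H.map (g ≫ f)).hom (one R) = (R.H.map f).hom ((R.H.map g).hom (one R))
    rw [Functor.map_comp]
    rfl

section Simple

variable {T : C} (hR : IsReal K R) (hss : ∀ (n : ℕ) (f : 𝟙_ C ⟶ tp T n), NumTriv f → f = 0)

include hR hss in
lemma ev_inj (n : ℕ) : Function.Injective (ev hR (tp T n)) := by
  rw [← LinearMap.ker_eq_bot, LinearMap.ker_eq_bot']
  intro f hf
  exact hss n f (numTriv_of_map hR (map_eq_zero_of hf))

include hR hss in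
lemma fin_hom (n : ℕ) : Module.Finite K (𝟙_ C ⟶ tp T n) := by
  have := R.finite (tp T n)
  exact Module.Finite.of_injective _ (ev_inj hR hss n)

include hR hss in
lemma dim_hom (n : ℕ) : dimE K (𝟙_ C ⟶ tp T n) = (numRank K (tp T n) : ℕ∞) := by
  have h5 : numIdeal K (𝟙_ C) (tp T n) = ⊥ := by
    rw [eq_bot_iff]
    intro f hf
    exact (Submodule.mem_bot K).2 (hss n f hf)
  have h6 := fin_hom hR hss n
  rw [dimE_eq, numRank, (Submodule.quotEquivOfEqBot _ h5).finrank_eq]

include hR hss in
/-- If all vectors of the subfunctor come from morphisms. -/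
lemma dim_eq {S : ∀ Z, Submodule K (R.H.obj Z)} (hS : IsMult R S) (n : ℕ)
    (hs : ∀ x ∈ S (tp T n), ∃ f : 𝟙_ C ⟶ tp T n, (R.H.map f).hom (one R) = x) :
    dimE K (S (tp T n)) = dimE K (𝟙_ C ⟶ tp T n) := by
  have h1 := fin_hom hR hss n
  have h2 := R.finite (tp T n)
  have h3 : LinearMap.range (ev hR (tp T n)) = S (tp T n) := by
    apply le_antisymm
    · rintro _ ⟨f, rfl⟩
      exact mem_of_ev hS f
    · intro x hx
      obtain ⟨f, hf⟩ := hs x hx
      exact ⟨f, hf⟩
  rw [dimE_eq, dimE_eq, ← h3, LinearMap.finrank_range_of_inj (ev_inj hR hss n)]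

end Simple

end Pool.Agent.T2h11.Zol
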