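import Pool.Agent.N64.AF.M1

/-!
# Groups of automorphisms of a realisation

`R` is a symmetric monoidal functor from `C` to finite dimensional super vector spaces over `K`.
-/

set_option autoImplicit false

open CategoryTheory Limits MonoidalCategory Module Filter Topology
open Pool.Agent.Y112.SR Pool.Agent.Y112.KD Pool.Agent.N64.AF
open scoped ENNReal TensorProduct

namespace Pool.Agent.T2h11.Zol

universe v u w y y'

section

variable {C : Type u} [Category.{v} C] [Preadditive C] [MonoidalCategory C]
  [SymmetricCategory C] {K : Type w} [Field K]

/-- An action of the group `G` on the realisation `R` by automorphisms of the functor which are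
compatible with the tensor product (for example the action of a Galois group on the étale
realisation, or of the points of the Mumford-Tate group on the Betti realisation). -/
structure TensorAction (R : SuperRealisation C K) (G : Type y) [Group G] where
  /-- the automorphism of the functor given by an element of the group -/
  aut : G →* Aut R.H
  aut_tensor : ∀ (g : G) (Y Z : C), Functor.LaxMonoidal.μ R.H Y Z ≫ (aut g).hom.app (Y ⊗ Z) =
    ((aut g).hom.app Y ⊗ₘ (aut g).hom.app Z) ≫ Functor.LaxMonoidal.μ R.H Y Z
  aut_unit : ∀ g : G, (aut g).hom.app (𝟙_ C) = 𝟙 _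

variable {R : SuperRealisation C K} {G : Type y} [Group G]

/-- The automorphism of the realisation of `Y` given by `g`. -/
def TensorAction.act (a : TensorAction R G) (g : G) (Y : C) : R.H.obj Y →ₗ[K] R.H.obj Y :=
  ((a.aut g).hom.app Y).hom

/-- The vectors of the realisation of `Y` which are fixed by the group. -/
def TensorAction.inv (a : TensorAction R G) (Y : C) : Submodule K (R.H.obj Y) :=
  ⨅ g, LinearMap.eqLocus (a.act g Y) LinearMap.id

/-- The group is connected in its action on the tensor powers of `T`: if a vector has only finitely
many images, then it is fixed. -/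
def TensorAction.IsConnected (a : TensorAction R G) (T : C) : Prop :=
  ∀ (n : ℕ) (x : R.H.obj (tp T n)), (Set.range fun g => a.act g (tp T n) x).Finite →
    x ∈ a.inv (tp T n)

end

/-- The quotients `a n / c n` converge to `N`, a natural number or infinity. -/
def Ratio (a c : ℕ → ℕ∞) (N : ℕ∞) : Prop :=
  Tendsto (fun n => ((a n : ℕ∞) : ℝ≥0∞) / ((c n : ℕ∞) : ℝ≥0∞)) atTop (𝓝 (N : ℝ≥0∞))

section

variable {C : Type u} [Category.{v} C] [Preadditive C] [MonoidalCategory C]
  [SymmetricCategory C] {K : Type w} [Field K]

/-- The unit vector of the realisation of the unit object. -/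
def one (R : SuperRealisation C K) : R.H.obj (𝟙_ C) :=
  (Functor.LaxMonoidal.ε R.H).hom (1 : K)

/-- The vector `x` comes from a morphism from the unit object. -/
def FromMor (R : SuperRealisation C K) {Z : C} (x : R.H.obj Z) : Prop :=
  ∃ f : 𝟙_ C ⟶ Z, (R.H.map f).hom (one R) = x

variable {R : SuperRealisation C K} {G : Type y} [Group G]

/-- The vectors of `B` which are fixed by the group span the space of all fixed vectors. -/
def SpannedBy (a : TensorAction R G) (T : C) (B : ∀ n, Set (R.H.obj (tp T n))) : Prop :=
  ∀ n, a.inv (tp T n) ≤ Submodule.span K {x | x ∈ B n ∧ x ∈ a.inv (tp T n)}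

/-- The dimension of the space of the fixed vectors in the realisation of `T ^ n`. -/
noncomputable def ncl (a : TensorAction R G) (T : C) (n : ℕ) : ℕ∞ := dimE K (a.inv (tp T n))

/-- The dimension of the space of the morphisms from the unit object to `T ^ n`. -/
noncomputable def ncom (K : Type w) [Field K] [Linear K C] (T : C) (n : ℕ) : ℕ∞ :=
  dimE K (𝟙_ C ⟶ tp T n)

/-- The vectors in the realisation of `T ^ n` which are fixed by the first group are also fixed by
the second one. -/
def InclAt {G' : Type y'} [Group G'] (a : TensorAction R G) (b : TensorAction R G') (T : C)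
    (n : ℕ) : Prop := a.inv (tp T n) ≤ b.inv (tp T n)

end

/-- The morphisms from the unit object to the tensor powers of `T` which are numerically trivial are
zero. -/
def NoNumTriv {C : Type u} [Category.{v} C] [Preadditive C] [MonoidalCategory C]
    [MonoidalPreadditive C] [SymmetricCategory C] [RightRigidCategory C] (T : C) : Prop :=
  ∀ (n : ℕ) (f : 𝟙_ C ⟶ tp T n), NumTriv f → f = 0

end Pool.Agent.T2h11.Zol
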