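import Pool.Agent.T2h11.Zol.Rate2

/-!
# The zero-one law for two groups of automorphisms of a realisation
-/

set_option autoImplicit false

open CategoryTheory Limits MonoidalCategory Module Filter Topology
open Pool.Agent.Y112.SR Pool.Agent.Y112.KD Pool.Agent.N64.AF
open scoped ENNReal TensorProduct

namespace Pool.Agent.T2h11.Zol

universe u w y y'

variable {C : Type u} [Category.{w} C] [Preadditive C] [MonoidalCategory C]
  [MonoidalPreadditive C] [SymmetricCategory C] [RightRigidCategory C]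
  {K : Type w} [Field K] [CharZero K] [IsAlgClosed K] [Linear K C] [MonoidalLinear K C]
  {R : SuperRealisation C K} {G : Type y} [Group G] {G' : Type y'} [Group G']

/-- The law for a subfunctor, and the orbits. -/
lemma law_sub {T : C} [ExactPairing T T] (h : IsPow K R T)
    (hss : ∀ (n : ℕ) (f : 𝟙_ C ⟶ tp T n), NumTriv f → f = 0)
    {S : ∀ Z, Submodule K (R.H.obj Z)} (hS : IsMult R S) :
    ∃ N : ℕ∞, Ratio (fun n => dimE K (S (tp T n))) (fun n => dimE K (𝟙_ C ⟶ tp T n)) N ∧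
      (N ≠ ⊤ → ∀ (G : Type y) [Group G] (b : TensorAction R G), b.IsConnected T →
        ∀ n, S (tp T n) ≤ b.inv (tp T n)) := by
  have := linear_of h.real
  obtain ⟨N, h1, -, h3⟩ := law h (sub R.H S hS.stab)
  refine ⟨N, ?_, fun hN G _ b hb n x hx => ?_⟩
  · refine h1.congr fun n => ?_
    change _ = ((dimE K (S (tp T n)) : ℕ∞) : ℝ≥0∞) / ((dimE K (𝟙_ C ⟶ tp T n) : ℕ∞) : ℝ≥0∞)
    rw [dim_hom h.real hss n]
    rfl
  · obtain ⟨-, m, l, z, -, hz⟩ := h3 hN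
    exact hb n x (orbit_finite h.real hS z hz b n x hx)

/-- **The zero-one law.** -/
theorem main_law {T : C} [ExactPairing T T] (h : IsPow K R T)
    (hss : ∀ (n : ℕ) (f : 𝟙_ C ⟶ tp T n), NumTriv f → f = 0)
    (a : TensorAction R G) (b : TensorAction R G') (ha : a.IsConnected T) (hb : b.IsConnected T)
    (B : ∀ n, Set (R.H.obj (tp T n)))
    (hB : ∀ n, a.inv (tp T n) ≤ Submodule.span K {x | x ∈ B n ∧ x ∈ a.inv (tp T n)})
    (hB' : ∀ n, ∀ x ∈ B n, x ∈ a.inv (tp T n) → x ∈ b.inv (tp T n) →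
      ∃ f : 𝟙_ C ⟶ tp T n, (R.H.map f).hom (one R) = x) :
    (∃ N : ℕ∞, Ratio (fun n => dimE K (a.inv (tp T n))) (fun n => dimE K (𝟙_ C ⟶ tp T n)) N ∧
      (N = 1 ∨ N = ⊤) ∧ (N = 1 ↔ ∀ n, a.inv (tp T n) ≤ b.inv (tp T n))) ∧
    (∃ N : ℕ∞, Ratio (fun n => dimE K (b.inv (tp T n))) (fun n => dimE K (𝟙_ C ⟶ tp T n)) N ∧
      (N ≠ ⊤ → ∀ n, b.inv (tp T n) ≤ a.inv (tp T n))) ∧
    (∃ N : ℕ∞, Ratio (fun n => dimE K (a.inv (tp T n)) + dimE K (b.inv (tp T n)))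
        (fun n => dimE K (𝟙_ C ⟶ tp T n)) N ∧
      (N = 2 ∨ N = ⊤) ∧ (N = 2 ↔ ∀ n, a.inv (tp T n) = b.inv (tp T n))) ∧
    ∀ k m n : ℕ, 128 * (k * m + 1) ^ 2 * bt R T ^ (2 * (k * m) + 6) ≤ n →
      (2 * dimE K (a.inv (tp T n)) < ((k + 2 : ℕ) : ℕ∞) * dimE K (𝟙_ C ⟶ tp T n) →
        a.inv (tp T m) ≤ b.inv (tp T m)) ∧
      (2 * dimE K (b.inv (tp T n)) < ((k + 2 : ℕ) : ℕ∞) * dimE K (𝟙_ C ⟶ tp T n) →
        b.inv (tp T m) ≤ a.inv (tp T m)) := by
  have hR := h.real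
  have hMa := isMult_inv a
  have hMb := isMult_inv b
  have hpos : ∀ n, dimE K (𝟙_ C ⟶ tp T n) ≠ 0 ∧ dimE K (𝟙_ C ⟶ tp T n) ≠ ⊤ := by
    intro n
    rw [dim_hom hR hss n]
    exact ⟨by exact_mod_cast (numRank_mono h n).1.ne', ENat.natCast_ne_top _⟩
  -- the ratio is one if the dimensions are equal
  have one_of : ∀ d : ℕ → ℕ∞, (∀ n, d n = dimE K (𝟙_ C ⟶ tp T n)) →
      Ratio d (fun n => dimE K (𝟙_ C ⟶ tp T n)) 1 := by
    intro d hd
    refine tendsto_const_nhds.congr fun n => ?_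
    rw [hd n]
    symm
    refine (ENNReal.div_self ?_ ?_).trans ENat.toENNReal_one.symm
    · exact_mod_cast (hpos n).1
    · exact_mod_cast (hpos n).2
  have uniq : ∀ (d : ℕ → ℕ∞) (N N' : ℕ∞), Ratio d (fun n => dimE K (𝟙_ C ⟶ tp T n)) N →
      Ratio d (fun n => dimE K (𝟙_ C ⟶ tp T n)) N' → N = N' := by
    intro d N N' h1 h2
    have h3 : (N : ℝ≥0∞) = N' := tendsto_nhds_unique h1 h2
    exact_mod_cast h3
  -- vectors of the first kind which are of the second kind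
  have hfull : (∀ n, a.inv (tp T n) ≤ b.inv (tp T n)) → ∀ n, ∀ x ∈ a.inv (tp T n),
      ∃ f : 𝟙_ C ⟶ tp T n, (R.H.map f).hom (one R) = x := by
    intro hab n x hx
    have h1 : a.inv (tp T n) ≤ LinearMap.range (ev hR (tp T n)) := by
      refine (hB n).trans (Submodule.span_le.2 ?_)
      rintro y ⟨hy1, hy2⟩
      obtain ⟨f, hf⟩ := hB' n y hy1 hy2 (hab n hy2)
      exact ⟨f, hf⟩
    exact h1 hx
  obtain ⟨N, hN, hN'⟩ := law_sub h hss hMa
  obtain ⟨M, hM, hM'⟩ := law_sub h hss hMb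
  have hNab : N ≠ ⊤ → ∀ n, a.inv (tp T n) ≤ b.inv (tp T n) := fun h1 => hN' h1 G' b hb
  have hMba : M ≠ ⊤ → ∀ n, b.inv (tp T n) ≤ a.inv (tp T n) := fun h1 => hM' h1 G a ha
  have hone : (∀ n, a.inv (tp T n) ≤ b.inv (tp T n)) → N = 1 := fun hab =>
    uniq _ _ _ hN (one_of _ fun n => dim_eq hR hss hMa n (hfull hab n))
  have hone' : (∀ n, a.inv (tp T n) = b.inv (tp T n)) → M = 1 := fun hab =>
    uniq _ _ _ hM (one_of _ fun n => dim_eq hR hss hMb n fun x hx =>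
      hfull (fun k => (hab k).le) n x ((hab n).ge hx))
  refine ⟨⟨N, hN, ?_, fun h1 => hNab (by rw [h1]; exact ENat.one_ne_top), hone⟩,
    ⟨M, hM, hMba⟩, ⟨N + M, ?_, ?_, ?_, ?_⟩, ?_⟩
  · by_cases h1 : N = ⊤
    · exact Or.inr h1
    · exact Or.inl (hone (hNab h1))
  · have h1 := Tendsto.add hN hM
    have h2 : ((N + M : ℕ∞) : ℝ≥0∞) = (N : ℝ≥0∞) + M := ENat.toENNReal_add N M
    change Tendsto _ _ (𝓝 ((N + M : ℕ∞) : ℝ≥0∞))
    rw [h2]
    refine h1.congr fun n => ?_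
    rw [ENNReal.div_add_div_same]
    change _ = (((dimE K (a.inv (tp T n)) + dimE K (b.inv (tp T n)) : ℕ∞)) : ℝ≥0∞) / _
    rw [ENat.toENNReal_add]
  · by_cases h1 : N = ⊤
    · right; rw [h1, top_add]
    by_cases h2 : M = ⊤
    · right; rw [h2, add_top]
    left
    have h3 : ∀ n, a.inv (tp T n) = b.inv (tp T n) := fun n =>
      le_antisymm (hNab h1 n) (hMba h2 n)
    rw [hone (hNab h1), hone' h3]
    norm_num
  · intro h1
    have h2 : N ≠ ⊤ := by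
      rintro rfl
      rw [top_add] at h1
      exact absurd h1 (by decide)
    have h3 : M ≠ ⊤ := by
      rintro rfl
      rw [add_top] at h1
      exact absurd h1 (by decide)
    exact fun n => le_antisymm (hNab h2 n) (hMba h3 n)
  · intro h1
    rw [hone fun n => (h1 n).le, hone' h1]
    norm_num
  · intro k m n hn
    exact ⟨fun h1 x hx => hb m x (rate h hss hMa hn h1 b x hx),
      fun h1 x hx => ha m x (rate h hss hMb hn h1 a x hx)⟩

/-- The number `n` is large compared with `k`, `m` and the dimension of `T`. -/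
def Large (R : SuperRealisation C K) (T : C) (k m n : ℕ) : Prop :=
  128 * (k * m + 1) ^ 2 * bt R T ^ (2 * (k * m) + 6) ≤ n

/-- The zero-one law, with the abbreviations. -/
theorem main_law' {T : C} [ExactPairing T T] (h : IsPow K R T) (hss : NoNumTriv T)
    (a : TensorAction R G) (b : TensorAction R G') (ha : a.IsConnected T) (hb : b.IsConnected T)
    (B : ∀ n, Set (R.H.obj (tp T n))) (hB : SpannedBy a T B)
    (hB' : ∀ n, ∀ x ∈ B n, x ∈ a.inv (tp T n) → x ∈ b.inv (tp T n) → FromMor R x) :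
    (∃ N : ℕ∞, Ratio (ncl a T) (ncom K T) N ∧ (N = 1 ∨ N = ⊤) ∧ (N = 1 ↔ ∀ n, InclAt a b T n)) ∧
    (∃ N : ℕ∞, Ratio (ncl b T) (ncom K T) N ∧ (N ≠ ⊤ → ∀ n, InclAt b a T n)) ∧
    (∃ N : ℕ∞, Ratio (ncl a T + ncl b T) (ncom K T) N ∧ (N = 2 ∨ N = ⊤) ∧
      (N = 2 ↔ ∀ n, InclAt a b T n ∧ InclAt b a T n)) ∧
    ∀ k m n : ℕ, Large R T k m n →
      (2 * ncl a T n < (k + 2 : ℕ) * ncom K T n → InclAt a b T m) ∧
      (2 * ncl b T n < (k + 2 : ℕ) * ncom K T n → InclAt b a T m) := by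
  obtain ⟨h1, h2, ⟨N, h3, h4, h5⟩, h6⟩ := main_law h hss a b ha hb B hB hB'
  exact ⟨h1, h2, ⟨N, h3, h4, h5.trans (forall_congr' fun n => le_antisymm_iff)⟩, h6⟩

end Pool.Agent.T2h11.Zol
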