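import Pool.Agent.T2h11.Zol.Base
import Pool.Agent.T2h11.Zol.Rate

/-!
# The effective form of the law
-/

set_option autoImplicit false

open CategoryTheory Limits MonoidalCategory Module Filter Topology
open Pool.Agent.Y112.SR Pool.Agent.Y112.KD Pool.Agent.N64.AF
open scoped ENNReal TensorProduct

namespace Pool.Agent.T2h11.Zol

universe u w y

variable {C : Type u} [Category.{w} C] [Preadditive C] [MonoidalCategory C]
  [MonoidalPreadditive C] [SymmetricCategory C] [RightRigidCategory C]
  {K : Type w} [Field K] [CharZero K] [IsAlgClosed K] [Linear K C] [MonoidalLinear K C]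
  {R : SuperRealisation C K}

/-- One step: the power of exponent `i + 1` contributes at least one half of the rank. -/
lemma step {T : C} [ExactPairing T T] (h : IsPow K R T) {m n i k : ℕ} (x : R.H.obj (tp T m))
    (hi : i < k) (hn : 128 * (k * m + 1) ^ 2 * bt R T ^ (2 * (k * m) + 6) ≤ n)
    (hx : pv R x (i + 1) ∉ gn x i (tp (tp T m) (i + 1))) :
    2 * finrank K (gn x i (tp T n)) + numRank K (tp T n) ≤
      2 * finrank K (gn x (i + 1) (tp T n)) := by
  have := linear_of h.real
  have hf := R.finite (tp T n)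
  have hb := bt_pos h
  let S := gn x (i + 1)
  let A : ∀ Z, Submodule K ((sub R.H S (gn_stab x (i + 1))).obj Z) := fun Z =>
    (gn x i Z).comap (S Z).subtype
  have hA : IsStab (sub R.H S (gn_stab x (i + 1))) A := by
    intro Y Z f y hy
    exact gn_stab x i f hy
  have h1 : ¬ Subsingleton ((quoS _ A hA).obj (tp T ((i + 1) * m))) := by
    intro hs
    obtain ⟨e⟩ := exists_iso_mul T m (i + 1)
    apply hx
    have h2 : (R.H.map e.hom).hom (pv R x (i + 1)) ∈ S (tp T ((i + 1) * m)) :=
      gn_stab x (i + 1) e.hom (pv_mem_gn x le_rfl)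
    have h3 : (Submodule.Quotient.mk (⟨_, h2⟩ : S (tp T ((i + 1) * m))) :
        S (tp T ((i + 1) * m)) ⧸ A (tp T ((i + 1) * m))) = 0 := @Subsingleton.elim _ hs _ _
    have h4 : (⟨_, h2⟩ : S (tp T ((i + 1) * m))) ∈ A (tp T ((i + 1) * m)) :=
      (Submodule.Quotient.mk_eq_zero _).1 h3
    have h5 : (R.H.map e.hom).hom (pv R x (i + 1)) ∈ gn x i (tp T ((i + 1) * m)) := h4
    have h6 := gn_stab x i e.inv h5
    have h7 : (R.H.map e.inv).hom ((R.H.map e.hom).hom (pv R x (i + 1))) = pv R x (i + 1) := by
      have h8 : (R.H.map (e.hom ≫ e.inv)).hom (pv R x (i + 1)) = pv R x (i + 1) := by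
        rw [Iso.hom_inv_id, CategoryTheory.Functor.map_id]
        rfl
      rw [Functor.map_comp] at h8
      exact h8
    change (R.H.map e.inv).hom ((R.H.map e.hom).hom (pv R x (i + 1))) ∈
      gn x i (tp (tp T m) (i + 1)) at h6
    rwa [h7] at h6
  have hle : gn x i (tp T n) ≤ S (tp T n) := gn_mono x (Nat.le_succ i) _
  have h9 : finrank K ((quoS _ A hA).obj (tp T n)) + finrank K (gn x i (tp T n)) =
      finrank K (S (tp T n)) := by
    have h10 := Submodule.finrank_quotient_add_finrank (R := K) (M := S (tp T n))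
      ((gn x i (tp T n)).comap (S (tp T n)).subtype)
    rw [(Submodule.comapSubtypeEquivOfLe hle).finrank_eq] at h10
    exact h10
  have h11 : numRank K (tp T n) ≤ 2 * finrank K ((quoS _ A hA).obj (tp T n)) := by
    by_contra hlt
    rw [not_le] at hlt
    refine h1 (explicit_criterion h (quoS _ A hA) (m := (i + 1) * m) (n := n) ?_ ?_ hlt)
    · refine le_trans ?_ hn
      have h12 : (i + 1) * m ≤ k * m := Nat.mul_le_mul_right m hi
      gcongr
    · exact inferInstanceAs (Module.Finite K (S (tp T n) ⧸
        ((gn x i (tp T n)).comap (S (tp T n)).subtype)))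
  have h12 : finrank K (S (tp T n)) = finrank K (gn x (i + 1) (tp T n)) := rfl
  omega

/-- **The effective law.** If the subfunctor is small at one explicit power, then the orbits of its
vectors at the power of exponent `m` are finite. -/
theorem rate {T : C} [ExactPairing T T] (h : IsPow K R T)
    (hss : ∀ (n : ℕ) (f : 𝟙_ C ⟶ tp T n), NumTriv f → f = 0)
    {S : ∀ Z, Submodule K (R.H.obj Z)} (hS : IsMult R S) {m n k : ℕ}
    (hn : 128 * (k * m + 1) ^ 2 * bt R T ^ (2 * (k * m) + 6) ≤ n)
    (hlt : 2 * dimE K (S (tp T n)) < ((k + 2 : ℕ) : ℕ∞) * dimE K (𝟙_ C ⟶ tp T n))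
    {G : Type y} [Group G] (a : TensorAction R G) (x : R.H.obj (tp T m)) (hx : x ∈ S (tp T m)) :
    (Set.range fun g => a.act g (tp T m) x).Finite := by
  have hR := h.real
  have h3 := fin_hom hR hss n
  have h4 := R.finite (tp T n)
  by_contra hinf
  have hno : ∀ i, pv R x (i + 1) ∉ gn x i (tp (tp T m) (i + 1)) := fun i hi =>
    hinf (orbit_fin_of_gn hR a x hi)
  have hc : numRank K (tp T n) = finrank K (𝟙_ C ⟶ tp T n) := by
    have h5 := dim_hom hR hss n
    rw [dimE_eq] at h5
    exact_mod_cast h5.symm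
  have key : ∀ i, i ≤ k → (i + 2) * numRank K (tp T n) ≤ 2 * finrank K (gn x i (tp T n)) := by
    intro i
    induction i with
    | zero =>
      intro _
      have h5 : LinearMap.range (ev hR (tp T n)) ≤ gn x 0 (tp T n) := by
        rintro _ ⟨f, rfl⟩
        exact Submodule.subset_span ⟨0, le_rfl, f, rfl⟩
      have h6 := Submodule.finrank_mono h5
      rw [LinearMap.finrank_range_of_inj (ev_inj hR hss n), ← hc] at h6
      omega
    | succ i ih =>
      intro hi
      have h5 := ih (by omega)
      have h6 := step h x (show i < k from hi) hn (hno i)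
      nlinarith
  have h5 := key k le_rfl
  have h6 := Submodule.finrank_mono (gn_le hS hx k (tp T n))
  rw [dimE_eq, dimE_eq, ← hc] at hlt
  have h7 : 2 * finrank K (S (tp T n)) < (k + 2) * numRank K (tp T n) := by exact_mod_cast hlt
  omega

end Pool.Agent.T2h11.Zol
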